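import Pool.Agent.Lib.MP_1c8600_tr.Tr

/-!
# MP_1c8600_lc: the positive answer for all sets of cardinality `2^ℵ₀`
-/

set_option autoImplicit false
set_option linter.unusedVariables false
set_option linter.style.haveILetI false

open Set

namespace Pool.LCT

open Pool.MP_3ade05_lc Pool.PC Pool.MP_1c8600_lc Pool.LCM
open Pool.UT hiding pw

variable {V : Set ZFSet.{0}} {n : ℕ}

/-- The composed map: the point of `E` with the same real as `x`, and `e0` if there is none. -/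
noncomputable def cmp (f g E e0 x : ZFSet.{0}) : ZFSet.{0} :=
  ZFSet.sUnion (ZFSet.sep (fun e => ap f e = ap g x ∨ (e = e0 ∧ ∀ e' ∈ E, ap f e' ≠ ap g x)) E)

lemma cmp_eq {f g E e0 x e : ZFSet.{0}}
    (hinj : ∀ x ∈ E, ∀ y ∈ E, ap f x = ap f y → x = y) (he : e ∈ E) (h : ap f e = ap g x) :
    cmp f g E e0 x = e := by
  unfold cmp
  have h1 : ZFSet.sep (fun e => ap f e = ap g x ∨ (e = e0 ∧ ∀ e' ∈ E, ap f e' ≠ ap g x)) E =
      {e} := by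
    ext w
    rw [ZFSet.mem_sep, ZFSet.mem_singleton]
    constructor
    · rintro ⟨h2, h3 | ⟨_, h3⟩⟩
      · exact hinj w h2 e he (h3.trans h.symm)
      · exact absurd h (h3 e he)
    · rintro rfl
      exact ⟨he, Or.inl h⟩
  rw [h1, ZFSet.sUnion_singleton]

lemma cmp_not {f g E e0 x : ZFSet.{0}} (he : e0 ∈ E) (h : ∀ e' ∈ E, ap f e' ≠ ap g x) :
    cmp f g E e0 x = e0 := by
  unfold cmp
  have h1 : ZFSet.sep (fun e => ap f e = ap g x ∨ (e = e0 ∧ ∀ e' ∈ E, ap f e' ≠ ap g x)) E =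
      {e0} := by
    ext w
    rw [ZFSet.mem_sep, ZFSet.mem_singleton]
    constructor
    · rintro ⟨h2, h3 | ⟨h3, _⟩⟩
      · exact absurd h3 (h w h2)
      · exact h3
    · rintro rfl
      exact ⟨he, Or.inr ⟨rfl, h⟩⟩
  rw [h1, ZFSet.sUnion_singleton]

/-- A set which can be mapped onto the reals can be mapped onto every set of size continuum. -/
lemma exists_onto [hT : TZ V] {E E' : ZFSet.{0}} (hE : E ∈ V) (hE' : E' ∈ V)
    (hc : SizeC V E)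
    (hg : ∃ g ∈ V, FunOn g E' ∧ ∀ y ∈ V, y ⊆ ZFSet.omega → ∃ x ∈ E', ZFSet.pair x y ∈ g) :
    ∃ p ∈ V, Onto E E' p := by
  obtain ⟨⟨f, hf, hff, hfv, hfi⟩, ⟨g0, _, _, hg0⟩⟩ := hc
  obtain ⟨g, hg, hgf, hgs⟩ := hg
  obtain ⟨e0, he0, _⟩ := hg0 ∅ empty_memV (fun z hz => absurd hz (ZFSet.notMem_empty z))
  have he0V : e0 ∈ V := hT.trans E hE e0 he0
  haveI : InE V f := ⟨hf⟩
  haveI : InE V g := ⟨hg⟩
  haveI : InE V E := ⟨hE⟩
  haveI : InE V E' := ⟨hE'⟩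
  haveI : InE V e0 := ⟨he0V⟩
  have hinj : ∀ x ∈ E, ∀ y ∈ E, ap f x = ap f y → x = y := by
    intro x hx y hy h
    refine hfi x y (ap f y) ?_ (FunOn.ap_mem hff hy)
    rw [← h]
    exact FunOn.ap_mem hff hx
  have hdf : DfT V (fun v : Fin 1 → ZFSet.{0} => cmp f g E e0 (v 0)) := by
    have h : DfT V (fun v : Fin 1 → ZFSet.{0} => ZFSet.sUnion (ZFSet.sep (fun e =>
      ap f e = ap g (v 0) ∨ (e = e0 ∧ ∀ e' ∈ E, ap f e' ≠ ap g (v 0))) E)) := inferInstance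
    exact h
  have h1 : mkF (cmp f g E e0) E' ∈ V := mem_of (E := V) (mkF (cmp f g E e0) E')
    (h := DfT.instMkF (F := fun x (_ : Fin 0 → ZFSet.{0}) => cmp f g E e0 x) (t := fun _ => E')
      (hF := hdf))
  refine ⟨_, h1, fun x hx => ?_, fun e he => ?_⟩
  · rw [ap_mkF hx]
    by_cases h : ∃ e ∈ E, ap f e = ap g x
    · obtain ⟨e, he, h⟩ := h
      rw [cmp_eq hinj he h]
      exact he
    · push Not at h
      rw [cmp_not he0 h]
      exact he0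
  · have h2 : ap f e ⊆ ZFSet.omega := hfv e _ (FunOn.ap_mem hff he)
    obtain ⟨x, hx, h3⟩ := hgs (ap f e) (ap_memE hf (hT.trans E hE e he)) h2
    refine ⟨x, hx, ?_⟩
    rw [ap_mkF hx]
    exact cmp_eq hinj he ((FunOn.ap_eq hgf hx).1 h3).symm

/-- The set of the reals of the model has the cardinality `2^ℵ₀`. -/
lemma sizeC_pw [hT : TZ V] : ∃ E ∈ V, SizeC V E ∧ ∀ x, x ∈ E ↔ x ∈ V ∧ x ⊆ ZFSet.omega := by
  have hP : Pool.UT.pw V ZFSet.omega ∈ V := pw_mem omega_memV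
  haveI : InE V (Pool.UT.pw V ZFSet.omega) := ⟨hP⟩
  have h1 : mkF (fun x => x) (Pool.UT.pw V ZFSet.omega) ∈ V :=
    mem_of (E := V) (mkF (fun x => x) (Pool.UT.pw V ZFSet.omega))
  refine ⟨_, hP, ⟨⟨_, h1, FunOn_mkF _ _, fun x y h => ?_, fun x x' y h h' => ?_⟩,
    ⟨_, h1, FunOn_mkF _ _, fun y hy hyo => ?_⟩⟩, fun x => mem_pw⟩
  · obtain ⟨h2, h3⟩ := pair_mem_mkF.1 h
    rw [h3]
    exact (mem_pw.1 h2).2
  · rw [← (pair_mem_mkF.1 h).2, ← (pair_mem_mkF.1 h').2]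
  · exact ⟨y, mem_pw.2 ⟨hy, hyo⟩, pair_mem_mkF.2 ⟨mem_pw.2 ⟨hy, hyo⟩, rfl⟩⟩

/-- If the answer is positive for one set of cardinality `2^ℵ₀`, it is positive for all of them
(and for all larger sets). -/
theorem positive_all (ht : ∀ x ∈ V, ∀ y ∈ x, y ∈ V) (hV : ZFCModel V) (h : PosE V)
    {E' : ZFSet.{0}} (hE' : E' ∈ V)
    (hg : ∃ g ∈ V, FunOn g E' ∧ ∀ y ∈ V, y ⊆ ZFSet.omega → ∃ x ∈ E', ZFSet.pair x y ∈ g) :
    ∃ A : ℕ → ZFSet.{0}, SeqIn V A ∧ (∀ n, A n ⊆ E') ∧ PropAV V E' A ∧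
      ∀ k, PropBV V E' A k := by
  haveI hC : TC V := tc_of ht hV
  obtain ⟨E, hE, hc, A, hAV, hA, ha, hb⟩ := h
  obtain ⟨p, hpV, hp⟩ := exists_onto hE hE' hc hg
  exact ⟨fun n => pre E' p 0 (A n), seq_pre hE' hpV hAV 0, fun n z hz => (mem_pre.1 hz).1,
    propA_pre hE hE' hpV hp hA ha, fun k => propB_pre hE hE' hpV hp hA (hb k)⟩

end Pool.LCT

namespace Pool.MP_1c8600_lc

open Pool.PC

/-- The positive answer for one set of cardinality `2^ℵ₀` gives it for all. -/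
theorem positive_of_posE {V : Set ZFSet.{0}} (hT : ∀ x ∈ V, ∀ y ∈ x, y ∈ V) (hV : ZFCModel V)
    (h : PosE V) : PositiveV V := by
  haveI hC : Pool.UT.TC V := Pool.LCM.tc_of hT hV
  obtain ⟨E, hE, hE1, _⟩ := Pool.LCT.sizeC_pw (V := V)
  exact ⟨⟨E, hE, hE1⟩, fun E' hE' hc => Pool.LCT.positive_all hT hV h hE' hc.2⟩

end Pool.MP_1c8600_lc
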