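import Pool.Agent.Lib.MP_1c8600_m.Basic
import Pool.Agent.Lib.MP_1c8600_pv.PosMod

/-!
# MP_1c8600_lc: the positive answer for one set passes to all sets which can be mapped onto it

`p` is a function of the model `V` from `E'` onto `E`.  For a sequence `A` of subsets of `E` the
sequence `A'` of the preimages has the same properties (a) and (b)_{k+1}.
-/

set_option autoImplicit false
set_option linter.unusedVariables false
set_option linter.style.haveILetI false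

open Set

namespace Pool.LCT

open Pool.MP_3ade05_lc Pool.PC Pool.MP_1c8600_lc Pool.LCM
open Pool.UT hiding pw

variable {V : Set ZFSet.{0}} {n : ℕ}

/-- The map of the powers. -/
noncomputable def PI (p : ZFSet.{0}) : ℕ → ZFSet.{0} → ZFSet.{0}
  | 0, z => ap p z
  | m + 1, z => ZFSet.pair (PI p m (fstZ z)) (ap p (sndZ z))

lemma PI_pair (p : ZFSet.{0}) (m : ℕ) (x y : ZFSet.{0}) :
    PI p (m + 1) (ZFSet.pair x y) = ZFSet.pair (PI p m x) (ap p y) := by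
  show ZFSet.pair (PI p m (fstZ _)) (ap p (sndZ _)) = _
  rw [fstZ_pair, sndZ_pair]

lemma dft_PI [hT : TZ V] {p : ZFSet.{0}} (hp : p ∈ V) (m : ℕ) :
    ∀ {n : ℕ} {t : (Fin n → ZFSet.{0}) → ZFSet.{0}} (ht : DfT V t),
      DfT V (fun v => PI p m (t v)) := by
  haveI : InE V p := ⟨hp⟩
  induction m with
  | zero =>
    intro n t ht
    have h : DfT V (fun v => ap p (t v)) := inferInstance
    exact h
  | succ m ih =>
    intro n t ht
    have h2 : DfT V (fun v => fstZ (t v)) := inferInstance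
    have h3 := ih h2
    have h : DfT V (fun v => ZFSet.pair (PI p m (fstZ (t v))) (ap p (sndZ (t v)))) :=
      inferInstance
    exact h

instance DfT.instPI [hT : TZ V] {p : ZFSet.{0}} [hp : InE V p]
    {t : (Fin n → ZFSet.{0}) → ZFSet.{0}} [ht : DfT V t] {m : ℕ} :
    DfT V (fun v => PI p m (t v)) := dft_PI hp.mem m ht

/-- The preimage in `E'^(m+1)`. -/
noncomputable def pre (E' p : ZFSet.{0}) (m : ℕ) (S : ZFSet.{0}) : ZFSet.{0} :=
  ZFSet.sep (fun z => PI p m z ∈ S) (Ep E' m)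

/-- The image in `E^(m+1)`. -/
noncomputable def ima (E p : ZFSet.{0}) (m : ℕ) (S : ZFSet.{0}) : ZFSet.{0} :=
  ZFSet.sep (fun w => ∃ z ∈ S, PI p m z = w) (Ep E m)

lemma mem_pre {E' p : ZFSet.{0}} {m : ℕ} {S z : ZFSet.{0}} :
    z ∈ pre E' p m S ↔ z ∈ Ep E' m ∧ PI p m z ∈ S := ZFSet.mem_sep

lemma mem_ima {E p : ZFSet.{0}} {m : ℕ} {S w : ZFSet.{0}} :
    w ∈ ima E p m S ↔ w ∈ Ep E m ∧ ∃ z ∈ S, PI p m z = w := ZFSet.mem_sep

/-- `p` maps `E'` onto `E`. -/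
structure Onto (E E' p : ZFSet.{0}) : Prop where
  into : ∀ x ∈ E', ap p x ∈ E
  onto : ∀ y ∈ E, ∃ x ∈ E', ap p x = y

variable {E E' p : ZFSet.{0}}

lemma PI_into (hp : Onto E E' p) (m : ℕ) : ∀ z ∈ Ep E' m, PI p m z ∈ Ep E m := by
  induction m with
  | zero => exact hp.into
  | succ m ih =>
    intro z hz
    obtain ⟨x, hx, y, hy, rfl⟩ := mem_Ep_succ.1 hz
    rw [PI_pair]
    exact pair_mem_Ep.2 ⟨ih x hx, hp.into y hy⟩

lemma PI_onto (hp : Onto E E' p) (m : ℕ) : ∀ w ∈ Ep E m, ∃ z ∈ Ep E' m, PI p m z = w := by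
  induction m with
  | zero => exact hp.onto
  | succ m ih =>
    intro w hw
    obtain ⟨x, hx, y, hy, rfl⟩ := mem_Ep_succ.1 hw
    obtain ⟨x', hx', rfl⟩ := ih x hx
    obtain ⟨y', hy', rfl⟩ := hp.onto y hy
    exact ⟨_, pair_mem_Ep.2 ⟨hx', hy'⟩, PI_pair _ _ _ _⟩

lemma ima_pre (hp : Onto E E' p) {m : ℕ} {S : ZFSet.{0}} (hS : S ⊆ Ep E m) :
    ima E p m (pre E' p m S) = S := by
  ext w
  rw [mem_ima]
  constructor
  · rintro ⟨_, z, hz, rfl⟩
    exact (mem_pre.1 hz).2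
  · intro hw
    obtain ⟨z, hz, rfl⟩ := PI_onto hp m w (hS hw)
    exact ⟨hS hw, z, mem_pre.2 ⟨hz, hw⟩, rfl⟩

lemma pre_diff (hp : Onto E E' p) {m : ℕ} {S : ZFSet.{0}} :
    pre E' p m (Ep E m \ S) = Ep E' m \ pre E' p m S := by
  ext z
  rw [mem_pre, ZFSet.mem_sdiff, ZFSet.mem_sdiff, mem_pre]
  constructor
  · rintro ⟨h1, h2, h3⟩
    exact ⟨h1, fun h => h3 h.2⟩
  · rintro ⟨h1, h2⟩
    exact ⟨h1, PI_into hp m z h1, fun h => h2 ⟨h1, h⟩⟩

lemma pre_uni {m : ℕ} {S : ℕ → ZFSet.{0}} :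
    pre E' p m (uni S) = uni (fun n => pre E' p m (S n)) := by
  ext z
  rw [mem_pre, mem_uni, mem_uni]
  constructor
  · rintro ⟨h1, n, h2⟩
    exact ⟨n, mem_pre.2 ⟨h1, h2⟩⟩
  · rintro ⟨n, h⟩
    exact ⟨(mem_pre.1 h).1, n, (mem_pre.1 h).2⟩

lemma pre_rect {A : ℕ → ZFSet.{0}} (m : ℕ) (k : ℕ → ℕ) :
    pre E' p m (rectZ A m k) = rectZ (fun n => pre E' p 0 (A n)) m k := by
  induction m with
  | zero => rfl
  | succ m ih =>
    ext z
    rw [mem_pre]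
    show _ ↔ z ∈ (rectZ (fun n => pre E' p 0 (A n)) m k).prod (pre E' p 0 (A (k (m + 1))))
    rw [← ih]
    constructor
    · rintro ⟨h1, h2⟩
      obtain ⟨x, hx, y, hy, rfl⟩ := mem_Ep_succ.1 h1
      rw [PI_pair] at h2
      have h3 : ZFSet.pair (PI p m x) (ap p y) ∈ (rectZ A m k).prod (A (k (m + 1))) := h2
      rw [ZFSet.pair_mem_prod] at h3
      exact ZFSet.pair_mem_prod.2 ⟨mem_pre.2 ⟨hx, h3.1⟩, mem_pre.2 ⟨hy, h3.2⟩⟩
    · intro h
      obtain ⟨x, hx, y, hy, rfl⟩ := ZFSet.mem_prod.1 h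
      refine ⟨pair_mem_Ep.2 ⟨(mem_pre.1 hx).1, (mem_pre.1 hy).1⟩, ?_⟩
      rw [PI_pair]
      show _ ∈ (rectZ A m k).prod (A (k (m + 1)))
      exact ZFSet.pair_mem_prod.2 ⟨(mem_pre.1 hx).2, (mem_pre.1 hy).2⟩

/-! ### Sequences of the model -/

lemma seq_pre [hT : TZ V] (hE' : E' ∈ V) (hpV : p ∈ V) {S : ℕ → ZFSet.{0}} (hS : SeqIn V S)
    (m : ℕ) : SeqIn V (fun n => pre E' p m (S n)) := by
  obtain ⟨s, hs, hsf, hsa⟩ := seq_ap hS
  haveI : InE V s := ⟨hs⟩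
  haveI : InE V p := ⟨hpV⟩
  haveI : InE V (Ep E' m) := ⟨Ep_memV hE' m⟩
  have h1 : DfT V (fun v : Fin 1 → ZFSet.{0} =>
      ZFSet.sep (fun z => PI p m z ∈ ap s (v 0)) (Ep E' m)) := inferInstance
  have h2 := seq_of_dft (V := V) (fun x => ZFSet.sep (fun z => PI p m z ∈ ap s x) (Ep E' m))
  have h3 : (fun n => pre E' p m (S n)) =
      fun n => ZFSet.sep (fun z => PI p m z ∈ ap s (num n)) (Ep E' m) := by
    funext n
    rw [hsa]
    rfl
  rw [h3]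
  exact h2

lemma seq_ima [hT : TZ V] (hE : E ∈ V) (hpV : p ∈ V) {S : ℕ → ZFSet.{0}} (hS : SeqIn V S)
    (m : ℕ) : SeqIn V (fun n => ima E p m (S n)) := by
  obtain ⟨s, hs, hsf, hsa⟩ := seq_ap hS
  haveI : InE V s := ⟨hs⟩
  haveI : InE V p := ⟨hpV⟩
  haveI : InE V (Ep E m) := ⟨Ep_memV hE m⟩
  have h1 : DfT V (fun v : Fin 1 → ZFSet.{0} =>
      ZFSet.sep (fun w => ∃ z ∈ ap s (v 0), PI p m z = w) (Ep E m)) := inferInstance
  have h2 := seq_of_dft (V := V) (fun x =>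
    ZFSet.sep (fun w => ∃ z ∈ ap s x, PI p m z = w) (Ep E m))
  have h3 : (fun n => ima E p m (S n)) =
      fun n => ZFSet.sep (fun w => ∃ z ∈ ap s (num n), PI p m z = w) (Ep E m) := by
    funext n
    rw [hsa]
    rfl
  rw [h3]
  exact h2

/-! ### Borel sets -/

lemma borel_pre [hT : TZ V] (hE' : E' ∈ V) (hpV : p ∈ V) (hp : Onto E E' p)
    {A : ℕ → ZFSet.{0}} {m : ℕ} {S : ZFSet.{0}} (h : BorelV V E A m S) :
    BorelV V E' (fun n => pre E' p 0 (A n)) m (pre E' p m S) := by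
  induction h with
  | rect k =>
    rw [pre_rect]
    exact BorelV.rect k
  | compl S _ ih =>
    have h1 := BorelV.compl _ ih
    have h2 : pre E' p m (Pool.MP_1c8600_lc.pw E m \ S) =
        Pool.MP_1c8600_lc.pw E' m \ pre E' p m S := pre_diff hp
    rw [h2]
    exact h1
  | union S hS _ ih =>
    rw [pre_uni]
    exact BorelV.union _ (seq_pre hE' hpV hS m) ih

lemma borel_ima [hT : TZ V] (hE : E ∈ V) (hpV : p ∈ V) (hp : Onto E E' p)
    {A : ℕ → ZFSet.{0}} (hA : ∀ n, A n ⊆ E) {m : ℕ} {S : ZFSet.{0}}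
    (h : BorelV V E' (fun n => pre E' p 0 (A n)) m S) :
    ∃ T, BorelV V E A m T ∧ S = pre E' p m T := by
  induction h with
  | rect k => exact ⟨rectZ A m k, BorelV.rect k, (pre_rect m k).symm⟩
  | compl S _ ih =>
    obtain ⟨T, hT1, rfl⟩ := ih
    exact ⟨Pool.MP_1c8600_lc.pw E m \ T, BorelV.compl T hT1, (pre_diff hp).symm⟩
  | union S hS _ ih =>
    choose T hT1 hT2 using ih
    have h1 : T = fun n => ima E p m (S n) := by
      funext n
      rw [hT2 n, ima_pre hp (borel_sub hA (hT1 n))]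
    have h2 : SeqIn V T := by
      rw [h1]
      exact seq_ima hE hpV hS m
    refine ⟨uni T, BorelV.union T h2 hT1, ?_⟩
    rw [pre_uni]
    congr 1
    funext n
    exact hT2 n

/-! ### Classes -/

lemma class_sub {A : ℕ → ZFSet.{0}} (hA : ∀ n, A n ⊆ E) {a S : ZFSet.{0}}
    (h : ClassV V E A a S) : S ⊆ E := by
  induction h with
  | gen k => exact hA k
  | gen_compl k => exact fun z hz => (ZFSet.mem_sdiff.1 hz).1
  | union a S b hS hb _ ih => exact sub_E ih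
  | union_compl a S b hS hb _ ih => exact fun z hz => (ZFSet.mem_sdiff.1 hz).1

lemma class_ima [hT : TZ V] (hE : E ∈ V) (hpV : p ∈ V) (hp : Onto E E' p)
    {A : ℕ → ZFSet.{0}} (hA : ∀ n, A n ⊆ E) {a S : ZFSet.{0}}
    (h : ClassV V E' (fun n => pre E' p 0 (A n)) a S) :
    ∃ T, ClassV V E A a T ∧ S = pre E' p 0 T := by
  have hd : ∀ T, E' \ pre E' p 0 T = pre E' p 0 (E \ T) := fun T =>
    (pre_diff (m := 0) hp).symm
  induction h with
  | gen k => exact ⟨A k, ClassV.gen k, rfl⟩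
  | gen_compl k => exact ⟨E \ A k, ClassV.gen_compl k, hd _⟩
  | union a S b hS hb _ ih =>
    choose T hT1 hT2 using ih
    have h1 : T = fun n => ima E p 0 (S n) := by
      funext n
      rw [hT2 n, ima_pre hp (class_sub hA (hT1 n))]
    have h2 : SeqIn V T := by
      rw [h1]
      exact seq_ima hE hpV hS 0
    refine ⟨uni T, ClassV.union a T b h2 hb hT1, ?_⟩
    rw [pre_uni]
    congr 1
    funext n
    exact hT2 n
  | union_compl a S b hS hb _ ih =>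
    choose T hT1 hT2 using ih
    have h1 : T = fun n => ima E p 0 (S n) := by
      funext n
      rw [hT2 n, ima_pre hp (class_sub hA (hT1 n))]
    have h2 : SeqIn V T := by
      rw [h1]
      exact seq_ima hE hpV hS 0
    refine ⟨E \ uni T, ClassV.union_compl a T b h2 hb hT1, ?_⟩
    rw [← hd, pre_uni]
    congr 2
    funext n
    exact hT2 n

/-! ### Projections -/

lemma pre_proj (hp : Onto E E' p) {m : ℕ} {B : ZFSet.{0}} :
    pre E' p m (projZ (Ep E m) E B) = projZ (Ep E' m) E' (pre E' p (m + 1) B) := by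
  ext z
  unfold projZ
  rw [mem_pre, ZFSet.mem_sep, ZFSet.mem_sep]
  constructor
  · rintro ⟨h1, h2, y, hy, h3⟩
    obtain ⟨y', hy', rfl⟩ := hp.onto y hy
    refine ⟨h1, y', hy', mem_pre.2 ⟨pair_mem_Ep.2 ⟨h1, hy'⟩, ?_⟩⟩
    rw [PI_pair]
    exact h3
  · rintro ⟨h1, y', hy', h3⟩
    refine ⟨h1, PI_into hp m z h1, ap p y', hp.into y' hy', ?_⟩
    have h4 := (mem_pre.1 h3).2
    rwa [PI_pair] at h4

lemma sigma_pre [hT : TZ V] (hE' : E' ∈ V) (hpV : p ∈ V) (hp : Onto E E' p)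
    {A : ℕ → ZFSet.{0}} {k : ℕ} :
    ∀ {m : ℕ} {S : ZFSet.{0}}, SigmaV V E A k m S →
      SigmaV V E' (fun n => pre E' p 0 (A n)) k m (pre E' p m S) := by
  induction k with
  | zero =>
    rintro m S ⟨B, hB, rfl⟩
    exact ⟨pre E' p (m + 1) B, borel_pre hE' hpV hp hB, pre_proj hp⟩
  | succ k ih =>
    rintro m S ⟨T, hT1, rfl⟩
    refine ⟨pre E' p (m + 1) T, ih hT1, ?_⟩
    have h1 := pre_diff (m := m + 1) (S := T) hp
    have h2 := pre_proj (m := m) (B := Ep E (m + 1) \ T) hp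
    rw [h1] at h2
    exact h2

lemma sigma_ima [hT : TZ V] (hE : E ∈ V) (hpV : p ∈ V) (hp : Onto E E' p)
    {A : ℕ → ZFSet.{0}} (hA : ∀ n, A n ⊆ E) {k : ℕ} :
    ∀ {m : ℕ} {S : ZFSet.{0}}, SigmaV V E' (fun n => pre E' p 0 (A n)) k m S →
      ∃ T, SigmaV V E A k m T ∧ S = pre E' p m T := by
  induction k with
  | zero =>
    rintro m S ⟨B, hB, rfl⟩
    obtain ⟨C, hC, rfl⟩ := borel_ima hE hpV hp hA hB
    exact ⟨_, ⟨C, hC, rfl⟩, (pre_proj hp).symm⟩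
  | succ k ih =>
    rintro m S ⟨T, hT1, rfl⟩
    obtain ⟨C, hC, rfl⟩ := ih hT1
    refine ⟨_, ⟨C, hC, rfl⟩, ?_⟩
    have h1 := pre_diff (m := m + 1) (S := C) hp
    have h2 := pre_proj (m := m) (B := Ep E (m + 1) \ C) hp
    rw [h1] at h2
    exact h2.symm

lemma sigma_sub (E : ZFSet.{0}) {A : ℕ → ZFSet.{0}} {k m : ℕ} {S : ZFSet.{0}}
    (h : SigmaV V E A k m S) : S ⊆ Ep E m := by
  cases k with
  | zero =>
    obtain ⟨B, _, rfl⟩ := h
    exact fun z hz => (ZFSet.mem_sep.1 hz).1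
  | succ k =>
    obtain ⟨B, _, rfl⟩ := h
    exact fun z hz => (ZFSet.mem_sep.1 hz).1

/-! ### The properties (a) and (b) -/

theorem propA_pre [hT : TZ V] (hE : E ∈ V) (hE' : E' ∈ V) (hpV : p ∈ V) (hp : Onto E E' p)
    {A : ℕ → ZFSet.{0}} (hA : ∀ n, A n ⊆ E) (h : PropAV V E A) :
    PropAV V E' (fun n => pre E' p 0 (A n)) := by
  intro a ha
  obtain ⟨S, hS1, hS2⟩ := h a ha
  refine ⟨pre E' p 0 S, borel_pre hE' hpV hp hS1, fun hc => hS2 ?_⟩
  obtain ⟨T, hT1, hT2⟩ := class_ima hE hpV hp hA hc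
  have h1 : S = T := by
    rw [← ima_pre hp (borel_sub hA hS1), hT2]
    exact ima_pre (m := 0) hp (class_sub hA hT1)
  rw [h1]
  exact hT1

theorem propB_pre [hT : TZ V] (hE : E ∈ V) (hE' : E' ∈ V) (hpV : p ∈ V) (hp : Onto E E' p)
    {A : ℕ → ZFSet.{0}} (hA : ∀ n, A n ⊆ E) {k : ℕ} (h : PropBV V E A k) :
    PropBV V E' (fun n => pre E' p 0 (A n)) k := by
  rintro S ⟨j, hj | ⟨T, hT1, rfl⟩⟩
  · obtain ⟨T, hT1, rfl⟩ := sigma_ima hE hpV hp hA hj
    exact sigma_pre hE' hpV hp (h T ⟨j, Or.inl hT1⟩)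
  · obtain ⟨C, hC, rfl⟩ := sigma_ima hE hpV hp hA hT1
    have h1 : E' \ pre E' p 0 C = pre E' p 0 (E \ C) := (pre_diff (m := 0) hp).symm
    rw [h1]
    exact sigma_pre hE' hpV hp (h _ ⟨j, Or.inr ⟨C, hC, rfl⟩⟩)

/-- The transfer theorem: if `V` contains a function from `E'` onto `E` and the answer is
positive for `E`, it is positive for `E'`. -/
theorem transfer [hT : TZ V] (hE : E ∈ V) (hE' : E' ∈ V) (hpV : p ∈ V) (hp : Onto E E' p)
    {A : ℕ → ZFSet.{0}} (hAV : SeqIn V A) (hA : ∀ n, A n ⊆ E) (ha : PropAV V E A) {k : ℕ}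
    (hb : PropBV V E A k) :
    ∃ A' : ℕ → ZFSet.{0}, SeqIn V A' ∧ (∀ n, A' n ⊆ E') ∧ PropAV V E' A' ∧
      PropBV V E' A' k :=
  ⟨fun n => pre E' p 0 (A n), seq_pre hE' hpV hAV 0, fun n z hz => (mem_pre.1 hz).1,
    propA_pre hE hE' hpV hp hA ha, propB_pre hE hE' hpV hp hA hb⟩

end Pool.LCT
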